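import Pool.Agent.Helper12.RQ.Polar

set_option autoImplicit false

open MeasureTheory Set Filter Topology Metric

open scoped ENNReal NNReal ContDiff

namespace Pool.Agent.Helper42.RQ
open Pool.Agent.Helper12.RQ

/-- the norm is a star function -/
theorem star_norm (n : ℕ) : IsStar 1 1 (fun y : E n => ‖y‖) where
  cpos := one_pos
  zero := norm_zero
  lip := fun y z => by rw [one_mul]; exact abs_norm_sub_norm_le y z
  slope := fun y t ht => by
    rw [norm_smul, Real.norm_of_nonneg ht.1]; linarith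

theorem dens_norm (n : ℕ) (hn : 2 ≤ n) (p : ℝ) :
    IsDens p (fun y : E n => ‖y‖) (fun t => ENNReal.ofReal (om n * t ^ (n - 1)))
      (om n) (om n) where
  meas := by fun_prop
  pos := om_pos n (by omega)
  lower := fun t _ => le_rfl
  upper := fun t _ => le_rfl
  flux_eq := by
    intro B hB hB0
    have : Nonempty (Fin n) := ⟨⟨0, by omega⟩⟩
    have : Nontrivial (E n) := inferInstance
    unfold flux
    have h1 : ∫⁻ y in (fun y : E n => ‖y‖) ⁻¹' B, ‖fderiv ℝ (fun y : E n => ‖y‖) y‖ₑ ^ p =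
        ∫⁻ y in {x : E n | ‖x‖ ∈ B}, (fun _ : ℝ => (1 : ℝ≥0∞)) ‖y‖ := by
      refine setLIntegral_congr_fun (measurable_norm hB) fun y hy => ?_
      have hy0 : y ≠ 0 := by
        rintro rfl
        have := hB0 hy
        simp at this
      have h2 : ‖fderiv ℝ (fun y : E n => ‖y‖) y‖ = 1 :=
        norm_fderiv_norm ((contDiffAt_norm ℝ hy0 (n := 1)).differentiableAt one_ne_zero)
      have h3 : ‖fderiv ℝ (fun y : E n => ‖y‖) y‖ₑ = 1 := by
        rw [← ofReal_norm_eq_enorm, h2, ENNReal.ofReal_one]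
      simp only [h3, ENNReal.one_rpow]
    rw [h1, polar n (by omega) _ measurable_const B hB hB0]
    rw [← lintegral_const_mul' _ _ ENNReal.ofReal_ne_top]
    refine setLIntegral_congr_fun hB fun t ht => ?_
    rw [ENNReal.ofReal_mul (om_pos n (by omega)).le, one_mul]

section profile

variable (K τ δ g : ℝ)

/-- the profile -/
noncomputable def hh (t : ℝ) : ℝ :=
  if t ≤ g then K * t else if t ≤ g + 2 then δ - 2 * τ + τ * (t - g) else t + δ - g - 2

/-- its derivative -/
noncomputable def dh (t : ℝ) : ℝ := if t < g then K else if t < g + 2 then τ else 1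

/-- the dilatation -/
noncomputable def qr (n : ℕ) (p : ℝ) (s : ℝ) : ℝ :=
  if s ≤ δ - 2 * τ then K ^ (p - n) else
    if s < δ then τ ^ (p - 1) * ((g + 2) / (δ / 2)) ^ (n - 1) else ((s + g + 2 - δ) / s) ^ (n - 1)

variable {K τ δ g}

theorem hh_bounds (hτ : 0 < τ) (hτ1 : τ ≤ 1) (hK : 1 ≤ K) (hg : K * g = δ - 2 * τ)
    {s t : ℝ} (hst : s ≤ t) :
    τ * (t - s) ≤ hh K τ δ g t - hh K τ δ g s ∧ hh K τ δ g t - hh K τ δ g s ≤ K * (t - s) := by
  have hKτ : τ ≤ K := hτ1.trans hK
  unfold hh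
  split_ifs with h1 h2 h3 h4 h5 h6 h7 h8
  · constructor <;> nlinarith
  · constructor <;> nlinarith
  · constructor <;> nlinarith
  · constructor <;> nlinarith
  · constructor <;> nlinarith
  · constructor <;> nlinarith
  · constructor <;> nlinarith
  · constructor <;> nlinarith
  · constructor <;> nlinarith

theorem hh_zero (hg0 : 0 < g) : hh K τ δ g 0 = 0 := by
  unfold hh; rw [if_pos hg0.le, mul_zero]

theorem hh_lip (hτ : 0 < τ) (hτ1 : τ ≤ 1) (hK : 1 ≤ K) (hg : K * g = δ - 2 * τ) (s t : ℝ) :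
    |hh K τ δ g s - hh K τ δ g t| ≤ K * |s - t| := by
  rcases le_total s t with h | h
  · have := hh_bounds hτ hτ1 hK hg h
    rw [abs_sub_comm s t, abs_of_nonneg (sub_nonneg.mpr h), abs_sub_comm, abs_of_nonneg]
    · exact this.2
    · exact le_trans (mul_nonneg hτ.le (sub_nonneg.mpr h)) this.1
  · have := hh_bounds hτ hτ1 hK hg h
    rw [abs_of_nonneg (sub_nonneg.mpr h), abs_of_nonneg]
    · exact this.2
    · exact le_trans (mul_nonneg hτ.le (sub_nonneg.mpr h)) this.1

theorem hh_strictMono (hτ : 0 < τ) (hτ1 : τ ≤ 1) (hK : 1 ≤ K) (hg : K * g = δ - 2 * τ) :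
    StrictMono (hh K τ δ g) := by
  intro s t hst
  have := (hh_bounds hτ hτ1 hK hg hst.le).1
  have h2 : 0 < τ * (t - s) := mul_pos hτ (sub_pos.mpr hst)
  linarith

theorem hh_deriv (hg : K * g = δ - 2 * τ) {t : ℝ} (h1 : t ≠ g) (h2 : t ≠ g + 2) :
    HasDerivAt (hh K τ δ g) (dh K τ g t) t := by
  unfold dh
  split_ifs with h3 h4
  · have : hh K τ δ g =ᶠ[𝓝 t] fun s => K * s := by
      filter_upwards [Iio_mem_nhds h3] with s hs
      unfold hh; rw [if_pos hs.le]
    refine HasDerivAt.congr_of_eventuallyEq ?_ this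
    simpa using (hasDerivAt_id t).const_mul K
  · have h3' : g < t := lt_of_le_of_ne (not_lt.mp h3) (Ne.symm h1)
    have : hh K τ δ g =ᶠ[𝓝 t] fun s => δ - 2 * τ + τ * (s - g) := by
      filter_upwards [Ioo_mem_nhds h3' h4] with s hs
      unfold hh; rw [if_neg (not_le.mpr hs.1), if_pos hs.2.le]
    refine HasDerivAt.congr_of_eventuallyEq ?_ this
    simpa using (((hasDerivAt_id t).sub_const g).const_mul τ).const_add (δ - 2 * τ)
  · have h4' : g + 2 < t := lt_of_le_of_ne (not_lt.mp h4) (Ne.symm h2)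
    have : hh K τ δ g =ᶠ[𝓝 t] fun s => s + δ - g - 2 := by
      filter_upwards [Ioi_mem_nhds h4'] with s hs
      have hs' : g + 2 < s := hs
      unfold hh; rw [if_neg (by linarith), if_neg (by linarith)]
    refine HasDerivAt.congr_of_eventuallyEq ?_ this
    simpa using (((hasDerivAt_id t).add_const δ).sub_const g).sub_const 2

theorem dh_pos (hτ : 0 < τ) (hK : 1 ≤ K) (t : ℝ) : 0 < dh K τ g t := by
  unfold dh; split_ifs <;> linarith

theorem qr_nonneg (hτ : 0 < τ) (hK : 1 ≤ K) (hδ : 0 < δ) (hg0 : 0 < g) (n : ℕ) (p s : ℝ) :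
    0 ≤ qr K τ δ g n p s := by
  unfold qr
  split_ifs with h1 h2
  · positivity
  · positivity
  · have : δ ≤ s := not_lt.mp h2
    have : 0 < s := by linarith
    have h3 : 0 ≤ s + g + 2 - δ := by linarith
    positivity

theorem qr_meas (n : ℕ) (p : ℝ) : Measurable (qr K τ δ g n p) := by
  unfold qr
  refine Measurable.ite measurableSet_Iic measurable_const ?_
  refine Measurable.ite measurableSet_Iio measurable_const ?_
  fun_prop

theorem real_key (hτ : 0 < τ) (hτ1 : τ ≤ 1) (hK : 1 ≤ K) (hg : K * g = δ - 2 * τ) (hg0 : 0 < g)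
    (hδ : 0 < δ) (hτδ : 4 * τ ≤ δ) (n : ℕ) (hn : 2 ≤ n) (p : ℝ) {t : ℝ} (ht : 0 < t)
    (h1 : t ≠ g) (h2 : t ≠ g + 2) :
    dh K τ g t ^ p * t ^ (n - 1) ≤
      dh K τ g t * (qr K τ δ g n p (hh K τ δ g t) * hh K τ δ g t ^ (n - 1)) := by
  have hK0 : 0 < K := by linarith
  unfold dh
  split_ifs with h3 h4
  · have e1 : hh K τ δ g t = K * t := by unfold hh; rw [if_pos h3.le]
    have e2 : K * t ≤ δ - 2 * τ := by rw [← hg]; exact mul_le_mul_of_nonneg_left h3.le hK0.le
    rw [e1]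
    unfold qr
    rw [if_pos e2, mul_pow, Real.rpow_sub hK0, Real.rpow_natCast]
    have e3 : K ^ n = K * K ^ (n - 1) := by
      rw [← pow_succ']; congr 1; omega
    rw [e3]
    apply le_of_eq
    have : K ^ (n - 1) ≠ 0 := by positivity
    field_simp
  · have h3' : g < t := lt_of_le_of_ne (not_lt.mp h3) (Ne.symm h1)
    have e1 : hh K τ δ g t = δ - 2 * τ + τ * (t - g) := by
      unfold hh; rw [if_neg (not_le.mpr h3'), if_pos h4.le]
    have e2 : δ - 2 * τ < δ - 2 * τ + τ * (t - g) := by nlinarith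
    have e3 : δ - 2 * τ + τ * (t - g) < δ := by nlinarith
    rw [e1]
    unfold qr
    rw [if_neg (not_le.mpr e2), if_pos e3]
    have e4 : τ ^ p = τ * τ ^ (p - 1) := by
      rw [Real.rpow_sub_one hτ.ne']; field_simp
    rw [e4, mul_assoc, mul_assoc, ← mul_pow]
    refine mul_le_mul_of_nonneg_left ?_ hτ.le
    refine mul_le_mul_of_nonneg_left ?_ (by positivity)
    refine pow_le_pow_left₀ ht.le ?_ _
    have e5 : δ / 2 ≤ δ - 2 * τ + τ * (t - g) := by linarith
    calc t ≤ g + 2 := h4.le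
      _ = (g + 2) / (δ / 2) * (δ / 2) := by field_simp
      _ ≤ _ := mul_le_mul_of_nonneg_left e5 (by positivity)
  · have h4' : g + 2 < t := lt_of_le_of_ne (not_lt.mp h4) (Ne.symm h2)
    have e1 : hh K τ δ g t = t + δ - g - 2 := by
      unfold hh; rw [if_neg (by linarith), if_neg (by linarith)]
    rw [e1]
    unfold qr
    rw [if_neg (by linarith), if_neg (by linarith), Real.one_rpow, one_mul, one_mul, ← mul_pow]
    have e2 : 0 < t + δ - g - 2 := by linarith
    apply le_of_eq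
    congr 1
    field_simp
    ring

theorem flux_le (hD : StmtCHAIN) (hτ : 0 < τ) (hτ1 : τ ≤ 1) (hK : 1 ≤ K)
    (hg : K * g = δ - 2 * τ) (hg0 : 0 < g)
    (hδ : 0 < δ) (hτδ : 4 * τ ≤ δ) (n : ℕ) (hn : 2 ≤ n) (p : ℝ) (hp : 1 ≤ p)
    (B : Set ℝ) (hB : MeasurableSet B) (hB0 : B ⊆ Ioi 0) :
    flux p (fun y : E n => hh K τ δ g ‖y‖) B ≤
      ∫⁻ x in {x : E n | ‖x‖ ∈ B}, ENNReal.ofReal (qr K τ δ g n p ‖x‖) := by
  have hn1 : 1 ≤ n := by omega
  have hlip : LipschitzWith K.toNNReal (hh K τ δ g) := by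
    refine LipschitzWith.of_dist_le_mul fun s t => ?_
    rw [Real.dist_eq, Real.dist_eq, Real.coe_toNNReal K (by linarith)]
    exact hh_lip hτ hτ1 hK hg s t
  have hcont : Continuous (hh K τ δ g) := hlip.continuous
  set ψ : ℝ → ℝ≥0∞ := B.indicator 1 with hψ
  have hψm : Measurable ψ := measurable_one.indicator hB
  have hchain := hD n p 1 1 (fun y : E n => ‖y‖) _ _ _ hn hp (star_norm n) (dens_norm n hn p)
    (hh K τ δ g) _ hlip (Ioi 0) measurableSet_Ioi subset_rfl ψ hψm
  have hS : MeasurableSet ((fun y : E n => hh K τ δ g ‖y‖) ⁻¹' B) :=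
    (hcont.measurable.comp measurable_norm) hB
  have h1 : flux p (fun y : E n => hh K τ δ g ‖y‖) B =
      ∫⁻ y in (fun y : E n => ‖y‖) ⁻¹' Ioi 0, ψ (hh K τ δ g ‖y‖) *
        ‖fderiv ℝ (fun z : E n => hh K τ δ g ‖z‖) y‖ₑ ^ p := by
    unfold flux
    rw [← lintegral_indicator hS, ← lintegral_indicator (measurable_norm measurableSet_Ioi)]
    congr 1
    funext y
    by_cases hy : hh K τ δ g ‖y‖ ∈ B
    · have hy0 : ‖y‖ ∈ Ioi (0 : ℝ) := by
        rcases (norm_nonneg y).eq_or_lt with h | h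
        · have := hB0 hy
          rw [← h, hh_zero hg0] at this
          exact absurd (mem_Ioi.mp this) (lt_irrefl 0)
        · exact h
      rw [indicator_of_mem (show y ∈ (fun y : E n => hh K τ δ g ‖y‖) ⁻¹' B from hy),
        indicator_of_mem (show y ∈ (fun y : E n => ‖y‖) ⁻¹' Ioi 0 from hy0), hψ,
        indicator_of_mem hy, Pi.one_apply, one_mul]
    · rw [indicator_of_notMem (show y ∉ (fun y : E n => hh K τ δ g ‖y‖) ⁻¹' B from hy)]
      by_cases hy0 : ‖y‖ ∈ Ioi (0 : ℝ)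
      · rw [indicator_of_mem (show y ∈ (fun y : E n => ‖y‖) ⁻¹' Ioi 0 from hy0), hψ,
          indicator_of_notMem hy, zero_mul]
      · rw [indicator_of_notMem (show y ∉ (fun y : E n => ‖y‖) ⁻¹' Ioi 0 from hy0)]
  rw [h1, hchain]
  set U : Set ℝ := Ioi 0 \ {g, g + 2} with hU
  have hUm : MeasurableSet U := measurableSet_Ioi.diff (Set.toFinite _).measurableSet
  have hUae : U =ᵐ[volume] Ioi 0 := by
    refine diff_null_ae_eq_self ?_
    exact (Set.toFinite _).measure_zero _
  rw [← setLIntegral_congr hUae]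
  set G : ℝ → ℝ≥0∞ := fun s => ψ s * (ENNReal.ofReal (om n) *
    (ENNReal.ofReal (qr K τ δ g n p s) * ENNReal.ofReal (s ^ (n - 1)))) with hG
  have h2 : ∫⁻ t in U, ψ (hh K τ δ g t) * ‖deriv (hh K τ δ g) t‖ₑ ^ p *
      ENNReal.ofReal (om n * t ^ (n - 1)) ≤
      ∫⁻ t in U, ENNReal.ofReal |dh K τ g t| * G (hh K τ δ g t) := by
    refine setLIntegral_mono' hUm fun t ht => ?_
    have ht0 : 0 < t := ht.1
    have ht1 : t ≠ g := fun h => ht.2 (by simp [h])
    have ht2 : t ≠ g + 2 := fun h => ht.2 (by simp [h])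
    have hdp := dh_pos (g := g) hτ hK t
    have hht : 0 < hh K τ δ g t := by
      have := hh_strictMono hτ hτ1 hK hg ht0
      rwa [hh_zero hg0] at this
    rw [(hh_deriv hg ht1 ht2).deriv, abs_of_pos hdp, hG]
    have e1 : ‖dh K τ g t‖ₑ = ENNReal.ofReal (dh K τ g t) := by
      rw [← ofReal_norm_eq_enorm, Real.norm_of_nonneg hdp.le]
    rw [e1, ENNReal.ofReal_rpow_of_pos hdp]
    have e2 := real_key hτ hτ1 hK hg hg0 hδ hτδ n hn p ht0 ht1 ht2
    have hq := qr_nonneg hτ hK hδ hg0 n p (hh K τ δ g t)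
    have hom := om_pos n hn1
    calc ψ (hh K τ δ g t) * ENNReal.ofReal (dh K τ g t ^ p) * ENNReal.ofReal (om n * t ^ (n - 1))
        = ψ (hh K τ δ g t) * (ENNReal.ofReal (om n) *
          ENNReal.ofReal (dh K τ g t ^ p * t ^ (n - 1))) := by
          rw [ENNReal.ofReal_mul hom.le, ENNReal.ofReal_mul (by positivity)]; ring
      _ ≤ ψ (hh K τ δ g t) * (ENNReal.ofReal (om n) *
          ENNReal.ofReal (dh K τ g t * (qr K τ δ g n p (hh K τ δ g t) *
            hh K τ δ g t ^ (n - 1)))) := by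
          gcongr
      _ = _ := by
          rw [ENNReal.ofReal_mul hdp.le, ENNReal.ofReal_mul hq]; ring
  refine h2.trans ?_
  rw [← lintegral_image_eq_lintegral_abs_deriv_mul hUm (f := hh K τ δ g)
    (fun t ht => (hh_deriv hg (fun h => ht.2 (by simp [h]))
      (fun h => ht.2 (by simp [h]))).hasDerivWithinAt)
    ((hh_strictMono hτ hτ1 hK hg).injective.injOn) G]
  have hGm : ∫⁻ s in Ioi (0 : ℝ), G s =
      ∫⁻ x in {x : E n | ‖x‖ ∈ B}, ENNReal.ofReal (qr K τ δ g n p ‖x‖) := by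
    rw [polar n hn1 (fun s => ENNReal.ofReal (qr K τ δ g n p s))
      (ENNReal.measurable_ofReal.comp (qr_meas n p)) B hB hB0]
    rw [← lintegral_const_mul' _ _ ENNReal.ofReal_ne_top, ← lintegral_indicator hB,
      ← lintegral_indicator measurableSet_Ioi]
    congr 1
    funext s
    rw [hG]
    by_cases hs : s ∈ B
    · rw [indicator_of_mem (hB0 hs), indicator_of_mem hs, hψ, indicator_of_mem hs, Pi.one_apply,
        one_mul]
    · rw [indicator_of_notMem hs]
      by_cases hs0 : s ∈ Ioi (0 : ℝ)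
      · rw [indicator_of_mem hs0, hψ, indicator_of_notMem hs, zero_mul]
      · rw [indicator_of_notMem hs0]
  rw [← hGm]
  refine lintegral_mono_set ?_
  rintro s ⟨t, ht, rfl⟩
  have := hh_strictMono hτ hτ1 hK hg ht.1
  rwa [hh_zero hg0] at this

end profile

theorem lit (_h1 : StmtDENS) (h2 : StmtCHAIN) (h3 : StmtHOMEO) (h4 : StmtIRQ) : StmtLIT := by
  intro n p hn hp1 hp2 d δ ε hδ hδd hε
  have hn' : (2 : ℝ) ≤ n := by exact_mod_cast hn
  have hp : 1 < p := by linarith
  have hnp : 0 < (n : ℝ) - p := by linarith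
  -- choice of `K`
  obtain ⟨K, hK1, hKδ, hKε⟩ : ∃ K : ℝ, 1 ≤ K ∧ δ ≤ K ∧ K ^ (p - n) ≤ ε := by
    have h5 := (tendsto_rpow_neg_atTop hnp).eventually_le_const hε
    obtain ⟨K, hK⟩ := (h5.and ((eventually_ge_atTop 1).and (eventually_ge_atTop δ))).exists
    refine ⟨K, hK.2.1, hK.2.2, ?_⟩
    have : p - n = -((n : ℝ) - p) := by ring
    rw [this]; exact hK.1
  have hK0 : 0 < K := by linarith
  -- choice of `τ`
  obtain ⟨τ, hτ, hτ1, hτδ, hτε⟩ : ∃ τ : ℝ, 0 < τ ∧ τ ≤ 1 ∧ 4 * τ ≤ δ ∧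
      τ ^ (p - 1) ≤ ε * (δ / 6) ^ (n - 1) := by
    set e := ε * (δ / 6) ^ (n - 1) with he
    have he0 : 0 < e := by positivity
    refine ⟨min 1 (min (δ / 4) (e ^ (1 / (p - 1)))), by positivity, min_le_left _ _, ?_, ?_⟩
    · have : min 1 (min (δ / 4) (e ^ (1 / (p - 1)))) ≤ δ / 4 :=
        (min_le_right _ _).trans (min_le_left _ _)
      linarith
    · have h5 : min 1 (min (δ / 4) (e ^ (1 / (p - 1)))) ≤ e ^ (1 / (p - 1)) :=
        (min_le_right _ _).trans (min_le_right _ _)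
      calc (min 1 (min (δ / 4) (e ^ (1 / (p - 1))))) ^ (p - 1)
          ≤ (e ^ (1 / (p - 1))) ^ (p - 1) :=
            Real.rpow_le_rpow (by positivity) h5 (by linarith)
        _ = e := by
            rw [← Real.rpow_mul he0.le, one_div, inv_mul_cancel₀ (by linarith), Real.rpow_one]
  set g : ℝ := (δ - 2 * τ) / K with hgdef
  have hg : K * g = δ - 2 * τ := by rw [hgdef]; field_simp
  have hg0 : 0 < g := by
    rw [hgdef]
    apply div_pos _ hK0
    linarith
  have hg1 : g ≤ 1 := by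
    rw [hgdef, div_le_one hK0]
    linarith
  -- the star function
  have hstar : IsStar τ K (fun y : E n => hh K τ δ g ‖y‖) := by
    refine ⟨hτ, ?_, ?_, ?_⟩
    · simp only [norm_zero]; exact hh_zero hg0
    · intro y z
      refine (hh_lip hτ hτ1 hK1 hg _ _).trans ?_
      exact mul_le_mul_of_nonneg_left (abs_norm_sub_norm_le y z) hK0.le
    · intro y t ht
      have h5 : ‖t • y‖ = t * ‖y‖ := by rw [norm_smul, Real.norm_of_nonneg ht.1]
      simp only [h5]
      have h6 : t * ‖y‖ ≤ ‖y‖ := by nlinarith [norm_nonneg y, ht.2]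
      have := (hh_bounds hτ hτ1 hK1 hg h6).1
      linarith
  obtain ⟨f, hf1, hf2⟩ := h3 n τ K _ hstar
  have hf0 : f 0 = 0 := by
    obtain ⟨s, _, hs⟩ := hf2 0
    rw [hs, smul_zero]
  set Q : E n → ℝ≥0∞ := fun x => ENNReal.ofReal (qr K τ δ g n p ‖x‖) with hQ
  have hQm : Measurable Q := ENNReal.measurable_ofReal.comp ((qr_meas n p).comp measurable_norm)
  have hmono := hh_strictMono hτ hτ1 hK1 hg
  refine ⟨f, Q, hQm, ?_, ?_, ?_⟩
  · refine h4 n p τ K _ f (ball 0 d) Q (by linarith) hstar hf1 isOpen_ball hQm ?_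
    intro ρ _ _ B hB hB0
    exact flux_le h2 hτ hτ1 hK1 hg hg0 hδ hτδ n hn p hp.le B hB (fun s hs => (hB0 hs).1)
  · have hne : Nonempty (Fin n) := ⟨⟨0, by omega⟩⟩
    refine ⟨(δ - τ) • EuclideanSpace.single ⟨0, by omega⟩ (1 : ℝ), ?_, ?_, ?_⟩
    · rw [norm_smul, EuclideanSpace.norm_single, norm_one, mul_one,
        Real.norm_of_nonneg (by linarith)]
      linarith
    · rw [norm_smul, EuclideanSpace.norm_single, norm_one, mul_one,
        Real.norm_of_nonneg (by linarith)]
      linarith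
    · rw [hf0, sub_zero]
      set x : E n := (δ - τ) • EuclideanSpace.single ⟨0, by omega⟩ (1 : ℝ) with hx
      have hxn : ‖x‖ = δ - τ := by
        rw [hx, norm_smul, EuclideanSpace.norm_single, norm_one, mul_one,
          Real.norm_of_nonneg (by linarith)]
      have h5 := hf1 x
      simp only [hxn] at h5
      have h6 : hh K τ δ g (g + 1) = δ - τ := by
        unfold hh
        rw [if_neg (by linarith), if_pos (by linarith)]; ring
      have h7 : ‖f x‖ = g + 1 := hmono.injective (h5.trans h6.symm)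
      rw [h7]; linarith
  · intro y hy
    rw [hQ]
    refine ENNReal.ofReal_le_ofReal ?_
    unfold qr
    split_ifs with h5
    · exact hKε
    · calc τ ^ (p - 1) * ((g + 2) / (δ / 2)) ^ (n - 1)
          ≤ (ε * (δ / 6) ^ (n - 1)) * ((g + 2) / (δ / 2)) ^ (n - 1) := by
            refine mul_le_mul_of_nonneg_right hτε (by positivity)
        _ ≤ (ε * (δ / 6) ^ (n - 1)) * (6 / δ) ^ (n - 1) := by
            refine mul_le_mul_of_nonneg_left ?_ (by positivity)
            refine pow_le_pow_left₀ (by positivity) ?_ _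
            rw [div_le_div_iff₀ (by positivity) hδ]
            nlinarith
        _ = ε := by
            rw [mul_assoc, ← mul_pow]
            have : δ / 6 * (6 / δ) = 1 := by field_simp
            rw [this, one_pow, mul_one]

theorem lim_contra {C W : ℝ≥0∞} (hC : C ≠ ⊤) (hW : W ≠ ⊤) {e : ℝ} (he : 0 < e)
    (h : ∀ ε : ℝ, 0 < ε → 1 ≤ C * (ENNReal.ofReal ε * W) ^ e) : False := by
  have h1 : Tendsto (fun ε : ℝ => C * (ENNReal.ofReal ε * W) ^ e) (𝓝[>] 0) (𝓝 0) := by
    have h2 : Tendsto (fun ε : ℝ => ENNReal.ofReal ε) (𝓝[>] 0) (𝓝 0) := by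
      have := (ENNReal.continuous_ofReal.tendsto 0).mono_left
        (nhdsWithin_le_nhds (s := Ioi (0 : ℝ)))
      simpa using this
    have h3 : Tendsto (fun ε : ℝ => ENNReal.ofReal ε * W) (𝓝[>] 0) (𝓝 0) := by
      have := ENNReal.Tendsto.mul_const h2 (Or.inr hW)
      simpa using this
    have h4 : Tendsto (fun ε : ℝ => (ENNReal.ofReal ε * W) ^ e) (𝓝[>] 0) (𝓝 0) := by
      have h5 := ((ENNReal.continuous_rpow_const (y := e)).tendsto 0).comp h3
      rw [ENNReal.zero_rpow_of_pos he] at h5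
      exact h5
    have := ENNReal.Tendsto.const_mul h4 (Or.inr hC)
    simpa using this
  have h5 : (1 : ℝ≥0∞) ≤ 0 := by
    refine ge_of_tendsto h1 ?_
    filter_upwards [self_mem_nhdsWithin] with ε hε using h ε hε
  simp at h5

theorem bdist_ball {n : ℕ} (hn : 2 ≤ n) {r : ℝ} (hr : 0 < r) :
    bdist (ball (0 : E n) r) 0 = ENNReal.ofReal r := by
  unfold bdist
  apply le_antisymm
  · have hx : r • EuclideanSpace.single ⟨0, by omega⟩ (1 : ℝ) ∈ (ball (0 : E n) r)ᶜ := by
      rw [mem_compl_iff, mem_ball_zero_iff, norm_smul, EuclideanSpace.norm_single, norm_one,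
        mul_one, Real.norm_of_nonneg hr.le]
      exact lt_irrefl r
    refine (Metric.infEDist_le_edist_of_mem hx).trans ?_
    rw [edist_comm, edist_zero_right, ← ofReal_norm, norm_smul, EuclideanSpace.norm_single,
      norm_one, mul_one, Real.norm_of_nonneg hr.le]
  · refine Metric.le_infEDist.mpr fun y hy => ?_
    rw [mem_compl_iff, mem_ball_zero_iff, not_lt] at hy
    rw [edist_comm, edist_zero_right, ← ofReal_norm]
    exact ENNReal.ofReal_le_ofReal hy

theorem nrm_le {n : ℕ} {s : ℝ} (hs : 0 < s) (Q : E n → ℝ≥0∞) (D : Set (E n))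
    (hD : MeasurableSet D) (e : ℝ≥0∞) (h : ∀ y ∈ D, Q y ≤ e) :
    nrm s Q D ≤ e * volume D ^ (1 / s) := by
  unfold nrm
  calc (∫⁻ x in D, Q x ^ s) ^ (1 / s) ≤ (∫⁻ _ in D, e ^ s) ^ (1 / s) := by
        refine ENNReal.rpow_le_rpow ?_ (by positivity)
        refine setLIntegral_mono' hD fun x hx => ENNReal.rpow_le_rpow (h x hx) hs.le
    _ = (e ^ s * volume D) ^ (1 / s) := by rw [setLIntegral_const]
    _ = e * volume D ^ (1 / s) := by
        rw [ENNReal.mul_rpow_of_nonneg _ _ (by positivity), ← ENNReal.rpow_mul,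
          mul_one_div_cancel hs.ne', ENNReal.rpow_one]

theorem lit2 (h : StmtLIT) : StmtLIT2 := by
  intro n p hn hp1 hp2 C
  have hn' : (2 : ℝ) ≤ n := by exact_mod_cast hn
  have hp : 1 < p := by linarith
  have hnp : 0 < (n : ℝ) - p := by linarith
  have hdat : ∀ (f : E n → E n) (Q : E n → ℝ≥0∞), Measurable Q →
      IsRingQHomeo p (ball 0 (1 / 2)) 0 Q f → Data p (ball 0 (1 / 2)) 0 Q f := fun f Q hQ hf =>
    ⟨isOpen_ball, (convex_ball _ _).isConnected ⟨0, mem_ball_self (by norm_num)⟩,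
      mem_ball_self (by norm_num), hQ, hf⟩
  have hb : bdist (ball (0 : E n) (1 / 2)) 0 = ENNReal.ofReal (1 / 2) :=
    bdist_ball hn (by norm_num)
  constructor
  · intro hE
    have hb4 : min 1 (bdist (ball (0 : E n) (1 / 2)) 0 ^ 4) = ENNReal.ofReal (1 / 16) := by
      rw [hb, ← ENNReal.ofReal_pow (by norm_num)]
      rw [min_eq_right]
      · norm_num
      · rw [← ENNReal.ofReal_one]
        exact ENNReal.ofReal_le_ofReal (by norm_num)
    set s : ℝ := n / (n - p) with hs
    have hs0 : 0 < s := by rw [hs]; positivity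
    set D : Set (E n) := ball 0 (1 / 16) with hD
    have hDe : {x : E n | edist x 0 < min 1 (bdist (ball (0 : E n) (1 / 2)) 0 ^ 4)} = D := by
      ext x
      rw [hb4, mem_setOf_eq, hD, mem_ball_zero_iff, edist_zero_right, ← ofReal_norm,
        ENNReal.ofReal_lt_ofReal_iff (by norm_num)]
    refine lim_contra (C := ENNReal.ofReal C) (W := volume D ^ (1 / s)) (e := 1 / (n - p))
      ENNReal.ofReal_ne_top (ENNReal.rpow_ne_top_of_nonneg (by positivity)
        (measure_ball_lt_top).ne) (by positivity) ?_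
    intro ε hε
    obtain ⟨f, Q, hQm, hQf, ⟨x, hx1, hx2, hx3⟩, hQε⟩ := h n p hn hp1 hp2 (1 / 2) (1 / 16) ε
      (by norm_num) (by norm_num) hε
    have hx0 : x ≠ 0 := by
      rintro rfl
      rw [norm_zero] at hx1; norm_num at hx1
    have h5 := hE (ball 0 (1 / 2)) 0 Q f (hdat f Q hQm hQf) x hx0 (by
      rw [hb4, edist_zero_right, ← ofReal_norm, ENNReal.ofReal_lt_ofReal_iff (by norm_num)]
      exact hx2)
    have h6 : (1 : ℝ≥0∞) ≤ ENNReal.ofReal ‖f x - f 0‖ := by
      rw [← ENNReal.ofReal_one]; exact ENNReal.ofReal_le_ofReal hx3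
    have h7 : ENNReal.ofReal (Real.log (1 / ‖x - 0‖) ^ (-(p * (n - 1) / (n * (n - p))))) ≤ 1 := by
      rw [← ENNReal.ofReal_one]
      refine ENNReal.ofReal_le_ofReal ?_
      refine Real.rpow_le_one_of_one_le_of_nonpos ?_ ?_
      · rw [sub_zero, Real.le_log_iff_exp_le (by positivity)]
        have h8 : Real.exp 1 ≤ 3 := by
          have := Real.exp_one_lt_d9; linarith
        have h9 : 3 ≤ 1 / ‖x‖ := by
          rw [le_div_iff₀ (norm_pos_iff.mpr hx0)]
          linarith
        linarith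
      · have : 0 ≤ p * (n - 1) / (n * (n - p)) := by
          apply div_nonneg <;> apply mul_nonneg <;> linarith
        linarith
    have h8 : nrm s Q {x : E n | edist x 0 < min 1 (bdist (ball (0 : E n) (1 / 2)) 0 ^ 4)} ≤
        ENNReal.ofReal ε * volume D ^ (1 / s) := by
      rw [hDe]
      exact nrm_le hs0 Q D measurableSet_ball _ fun y hy => hQε y (by
        rwa [hD, mem_ball_zero_iff] at hy)
    calc (1 : ℝ≥0∞) ≤ _ := h6.trans h5
      _ ≤ ENNReal.ofReal C * (ENNReal.ofReal ε * volume D ^ (1 / s)) ^ (1 / ((n : ℝ) - p)) * 1 := by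
          refine mul_le_mul' (mul_le_mul' le_rfl ?_) h7
          exact ENNReal.rpow_le_rpow h8 (by positivity)
      _ = _ := mul_one _
  · intro hE
    have hb4 : bdist (ball (0 : E n) (1 / 2)) 0 / 4 = ENNReal.ofReal (1 / 8) := by
      rw [hb]
      have : (4 : ℝ≥0∞) = ENNReal.ofReal 4 := by norm_num
      rw [this, ← ENNReal.ofReal_div_of_pos (by norm_num)]
      norm_num
    set s : ℝ := n / (n - p) + 1 with hs
    have hs1 : n / ((n : ℝ) - p) < s := by rw [hs]; linarith
    have hs0 : 0 < s := by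
      have : 0 < (n : ℝ) / (n - p) := by positivity
      linarith
    set D : Set (E n) := ball 0 (1 / 8) with hD
    have hDe : {x : E n | edist x 0 < bdist (ball (0 : E n) (1 / 2)) 0 / 4} = D := by
      ext x
      rw [hb4, mem_setOf_eq, hD, mem_ball_zero_iff, edist_zero_right, ← ofReal_norm,
        ENNReal.ofReal_lt_ofReal_iff (by norm_num)]
    refine lim_contra (C := ENNReal.ofReal C) (W := volume D ^ (1 / s)) (e := 1 / (n - p))
      ENNReal.ofReal_ne_top (ENNReal.rpow_ne_top_of_nonneg (by positivity)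
        (measure_ball_lt_top).ne) (by positivity) ?_
    intro ε hε
    obtain ⟨f, Q, hQm, hQf, ⟨x, hx1, hx2, hx3⟩, hQε⟩ := h n p hn hp1 hp2 (1 / 2) (1 / 8) ε
      (by norm_num) (by norm_num) hε
    have hx0 : x ≠ 0 := by
      rintro rfl
      rw [norm_zero] at hx1; norm_num at hx1
    have h5 := hE (ball 0 (1 / 2)) 0 Q f (hdat f Q hQm hQf) s hs1 x hx0 (by
      rw [hb4, edist_zero_right, ← ofReal_norm, ENNReal.ofReal_lt_ofReal_iff (by norm_num)]
      exact hx2)
    have h6 : (1 : ℝ≥0∞) ≤ ENNReal.ofReal ‖f x - f 0‖ := by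
      rw [← ENNReal.ofReal_one]; exact ENNReal.ofReal_le_ofReal hx3
    have h7 : ENNReal.ofReal (‖x - 0‖ ^ (1 - n / (s * (n - p)))) ≤ 1 := by
      rw [← ENNReal.ofReal_one]
      refine ENNReal.ofReal_le_ofReal ?_
      rw [sub_zero]
      refine Real.rpow_le_one (norm_nonneg x) (by linarith) ?_
      have : n / (s * (n - p)) ≤ 1 := by
        rw [div_le_one (by positivity)]
        rw [div_lt_iff₀ hnp] at hs1
        linarith
      linarith
    have h8 : nrm s Q {x : E n | edist x 0 < bdist (ball (0 : E n) (1 / 2)) 0 / 4} ≤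
        ENNReal.ofReal ε * volume D ^ (1 / s) := by
      rw [hDe]
      exact nrm_le hs0 Q D measurableSet_ball _ fun y hy => hQε y (by
        rwa [hD, mem_ball_zero_iff] at hy)
    calc (1 : ℝ≥0∞) ≤ _ := h6.trans h5
      _ ≤ ENNReal.ofReal C * (ENNReal.ofReal ε * volume D ^ (1 / s)) ^ (1 / ((n : ℝ) - p)) * 1 := by
          refine mul_le_mul' (mul_le_mul' le_rfl ?_) h7
          exact ENNReal.rpow_le_rpow h8 (by positivity)
      _ = _ := mul_one _

end Pool.Agent.Helper42.RQ
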